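import Pool.Agent.LibST91T.TX1

/-!
[ST TX2] The field generated by a root of a monic polynomial all of whose roots but one have a small
derivative, and the element `η = f'(θ)`.
-/

set_option autoImplicit false

open NumberField Polynomial

namespace Pool.Agent.LibST91

theorem map_eq_nodal (n : ℕ) (f : ℤ[X]) (hf : f.Monic) (hn : f.natDegree = n)
    (t : Fin n → ℂ) (ht : Function.Injective t) (hft : ∀ i, aeval (t i) f = 0) :
    f.map (algebraMap ℤ ℂ) = Lagrange.nodal Finset.univ t := by
  refine eq_of_monic_of_dvd_of_natDegree_le (Lagrange.nodal_monic) (hf.map _) ?_ ?_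
  · rw [Lagrange.nodal]
    refine Finset.prod_dvd_of_coprime (fun i _ j _ hij => ?_) (fun i _ => ?_)
    · exact pairwise_coprime_X_sub_C ht hij
    · rw [dvd_iff_isRoot, IsRoot.def, eval_map_algebraMap]
      exact hft i
  · rw [Lagrange.natDegree_nodal, hf.natDegree_map, hn]
    simp

/-- The derivative at a root. -/
theorem aeval_deriv (n : ℕ) (f : ℤ[X]) (hf : f.Monic) (hn : f.natDegree = n)
    (t : Fin n → ℂ) (ht : Function.Injective t) (hft : ∀ i, aeval (t i) f = 0) (i : Fin n) :
    aeval (t i) (derivative f) = ∏ j ∈ Finset.univ.erase i, (t i - t j) := by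
  have h := map_eq_nodal n f hf hn t ht hft
  rw [← eval_map_algebraMap, ← derivative_map, h,
    Lagrange.eval_nodal_derivative_eval_node_eq (Finset.mem_univ i), Lagrange.eval_nodal]

theorem aeval_deriv_ne (n : ℕ) (f : ℤ[X]) (hf : f.Monic) (hn : f.natDegree = n)
    (t : Fin n → ℂ) (ht : Function.Injective t) (hft : ∀ i, aeval (t i) f = 0) (i : Fin n) :
    aeval (t i) (derivative f) ≠ 0 := by
  rw [aeval_deriv n f hf hn t ht hft]
  refine Finset.prod_ne_zero_iff.2 fun j hj => ?_
  rw [sub_ne_zero]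
  intro h
  exact (Finset.mem_erase.1 hj).1 (ht h).symm

theorem root_mem (n : ℕ) (f : ℤ[X]) (hf : f.Monic) (hn : f.natDegree = n)
    (t : Fin n → ℂ) (ht : Function.Injective t) (hft : ∀ i, aeval (t i) f = 0) (w : ℂ)
    (hw : aeval w f = 0) : ∃ i, w = t i := by
  have h := map_eq_nodal n f hf hn t ht hft
  rw [← eval_map_algebraMap, h, Lagrange.eval_nodal, Finset.prod_eq_zero_iff] at hw
  obtain ⟨i, _, hi⟩ := hw
  exact ⟨i, sub_eq_zero.1 hi⟩

/-- If all roots `t i` except one satisfy `|f'(t i)| < 1` then `f` is irreducible. -/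
theorem irr_of_small (n : ℕ) (f : ℤ[X]) (hf : f.Monic) (hn : f.natDegree = n)
    (t : Fin n → ℂ) (ht : Function.Injective t) (hft : ∀ i, aeval (t i) f = 0) (i₀ : Fin n)
    (hs : ∀ i, i ≠ i₀ → ‖aeval (t i) (derivative f)‖ < 1) :
    Irreducible (f.map (algebraMap ℤ ℚ)) := by
  have hint : ∀ i, IsIntegral ℤ (t i) := fun i => ⟨f, hf, by rw [← aeval_def]; exact hft i⟩
  set p : ℚ[X] := minpoly ℚ (t i₀) with hp
  have hpirr : Irreducible p := minpoly.irreducible (hint i₀).tower_top
  have hpm : p.Monic := minpoly.monic (hint i₀).tower_top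
  have hroot : ∀ i, aeval (t i) p = 0 := by
    intro i
    set q : ℤ[X] := minpoly ℤ (t i) with hq
    have hqm : q.Monic := minpoly.monic (hint i)
    have hqirr : Irreducible q := minpoly.irreducible (hint i)
    have hqQ : minpoly ℚ (t i) = q.map (algebraMap ℤ ℚ) :=
      minpoly.isIntegrallyClosed_eq_field_fractions' ℚ (hint i)
    have hqirrQ : Irreducible (q.map (algebraMap ℤ ℚ)) := by
      rw [← hqQ]
      exact minpoly.irreducible (hint i).tower_top
    have hqf : q ∣ f := minpoly.isIntegrallyClosed_dvd (hint i) (hft i)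
    by_cases hq0 : aeval (t i₀) q = 0
    · have h1 : minpoly ℚ (t i₀) = q.map (algebraMap ℤ ℚ) := by
        symm
        refine minpoly.eq_of_irreducible_of_monic hqirrQ ?_ (hqm.map _)
        rw [aeval_map_algebraMap, hq0]
      rw [hp, h1, ← hqQ, minpoly.aeval]
    · exfalso
      obtain ⟨K, iK, iN, θ, h1, h2, h3, h4⟩ := field_setup q hqm hqirrQ
      obtain ⟨σ, hσ⟩ := h4 (t i) (minpoly.aeval ℤ (t i))
      set η : 𝓞 K := aeval θ (derivative f) with hη
      have hη0 : η ≠ 0 := by
        intro h5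
        have h6 := emb_aeval K θ σ (derivative f)
        rw [← hη, h5, hσ] at h6
        exact aeval_deriv_ne n f hf hn t ht hft i (by rw [← h6]; simp)
      have hlt : ∀ φ : K →+* ℂ, ‖φ (η : K)‖ < 1 := by
        intro φ
        have h6 := emb_aeval K θ φ q
        have h7 : aeval θ q = 0 := by rw [← h2]; exact minpoly.aeval ℤ θ
        rw [h7] at h6
        have h8 : aeval (φ (θ : K)) q = 0 := by rw [← h6]; simp
        have h9 : aeval (φ (θ : K)) f = 0 := by
          obtain ⟨r, hr⟩ := hqf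
          rw [hr, map_mul, h8, zero_mul]
        obtain ⟨j, hj⟩ := root_mem n f hf hn t ht hft _ h9
        have hji : j ≠ i₀ := by
          intro h
          rw [hj, h] at h8
          exact hq0 h8
        rw [hη, emb_aeval, hj]
        exact hs j hji
      have w : InfinitePlace K := InfinitePlace.mk σ
      have h10 : ∀ z : InfinitePlace K, z (η : K) < 1 := by
        intro z
        rw [← InfinitePlace.norm_embedding_eq]
        exact hlt _
      have h11 := InfinitePlace.one_le_of_lt_one (w := w) hη0 (fun z _ => h10 z)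
      exact absurd (h10 w) (not_lt.2 h11)
  have hdvd : p ∣ f.map (algebraMap ℤ ℚ) := by
    refine minpoly.dvd ℚ (t i₀) ?_
    rw [aeval_map_algebraMap]
    exact hft i₀
  have hdeg : n ≤ p.natDegree := by
    have h1 : p.map (algebraMap ℚ ℂ) ≠ 0 := (hpm.map _).ne_zero
    have h2 : Finset.univ.image t ⊆ (p.map (algebraMap ℚ ℂ)).roots.toFinset := by
      intro w hw
      rw [Finset.mem_image] at hw
      obtain ⟨i, _, rfl⟩ := hw
      rw [Multiset.mem_toFinset, mem_roots h1, IsRoot.def, eval_map_algebraMap]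
      exact hroot i
    have h3 := Finset.card_le_card h2
    rw [Finset.card_image_of_injective _ ht, Finset.card_univ, Fintype.card_fin] at h3
    refine h3.trans ((Multiset.toFinset_card_le _).trans ((card_roots' _).trans ?_))
    rw [natDegree_map]
  have heq : f.map (algebraMap ℤ ℚ) = p := by
    refine eq_of_monic_of_dvd_of_natDegree_le hpm (hf.map _) hdvd ?_
    rw [hf.natDegree_map, hn]
    exact hdeg
  rw [heq]
  exact hpirr

theorem field_eta (n : ℕ) (f : ℤ[X]) (hf : f.Monic) (hn : f.natDegree = n)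
    (t : Fin n → ℂ) (ht : Function.Injective t) (hft : ∀ i, aeval (t i) f = 0) (i₀ : Fin n)
    (hs : ∀ i, i ≠ i₀ → ‖aeval (t i) (derivative f)‖ < 1) :
    ∃ (K : Type) (_ : Field K) (_ : NumberField K) (η : 𝓞 K),
      Module.finrank ℚ K = n ∧ η ≠ 0 ∧
      |(discr K : ℝ)| ≤ |((Algebra.norm ℤ η : ℤ) : ℝ)| ∧
      ((Algebra.norm ℤ η : ℤ) : ℂ) = ∏ i, aeval (t i) (derivative f) ∧
      (∀ i, ∃ σ : K →+* ℂ, σ (η : K) = aeval (t i) (derivative f)) ∧
      (∀ φ : K →+* ℂ, ∃ i, φ (η : K) = aeval (t i) (derivative f)) := by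
  have hirr := irr_of_small n f hf hn t ht hft i₀ hs
  obtain ⟨K, iK, iN, θ, h1, h2, h3, h4⟩ := field_setup f hf hirr
  have hne : (aeval θ (derivative f) : 𝓞 K) ≠ 0 := by
    intro h5
    obtain ⟨σ, hσ⟩ := h4 (t i₀) (hft i₀)
    have h6 := emb_aeval K θ σ (derivative f)
    rw [h5, hσ] at h6
    exact aeval_deriv_ne n f hf hn t ht hft i₀ (by rw [← h6]; simp)
  refine ⟨K, iK, iN, aeval θ (derivative f), h1.trans hn, hne, ?_, ?_, ?_, ?_⟩
  · have h5 := discr_dvd_norm K θ h3
    rw [h2] at h5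
    have h6 : (Algebra.norm ℤ (aeval θ (derivative f) : 𝓞 K)) ≠ 0 := by
      rw [Algebra.norm_ne_zero_iff]
      exact hne
    have h7 := Nat.le_of_dvd (Int.natAbs_pos.2 h6) h5
    have h8 : ((discr K).natAbs : ℝ) ≤ ((Algebra.norm ℤ (aeval θ (derivative f) : 𝓞 K)).natAbs : ℝ) := by
      exact_mod_cast h7
    simpa [Nat.cast_natAbs] using h8
  · exact norm_prod f n hn t ht hft K θ h1 h4 _
  · intro i
    obtain ⟨σ, hσ⟩ := h4 (t i) (hft i)
    refine ⟨σ, ?_⟩
    rw [emb_aeval, hσ]
  · intro φ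
    have h6 := emb_aeval K θ φ f
    have h7 : aeval θ f = 0 := by
      have h := minpoly.aeval ℤ θ
      rwa [h2] at h
    rw [h7] at h6
    have h8 : aeval (φ (θ : K)) f = 0 := by rw [← h6]; simp
    obtain ⟨i, hi⟩ := root_mem n f hf hn t ht hft _ h8
    refine ⟨i, ?_⟩
    rw [emb_aeval, hi]

end Pool.Agent.LibST91
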