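import Mathlib

/-!
[ST TX3a] A number field containing two conjugates of `K` and one of `F`.
-/

set_option autoImplicit false

namespace Pool.Agent.LibST91

theorem compositum (d e : ℕ) (K : Type) [Field K] [NumberField K] (hd : Module.finrank ℚ K ≤ d)
    (F : Type) [Field F] [NumberField F] (he : Module.finrank ℚ F ≤ e)
    (σ τ : K →+* ℂ) (ι : F →+* ℂ) : ∃ (L : Type) (_ : Field L) (_ : NumberField L),
      Module.finrank ℚ L ≤ d * d * e ∧ ∃ (σ₀ : L →+* ℂ) (τ₁ τ₂ : K →+* L) (τ₃ : F →+* L),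
      (∀ x, σ₀ (τ₁ x) = σ x) ∧ (∀ x, σ₀ (τ₂ x) = τ x) ∧ (∀ x, σ₀ (τ₃ x) = ι x) := by
  set A1 : IntermediateField ℚ ℂ := (σ.toRatAlgHom).fieldRange with hA1
  set A2 : IntermediateField ℚ ℂ := (τ.toRatAlgHom).fieldRange with hA2
  set A3 : IntermediateField ℚ ℂ := (ι.toRatAlgHom).fieldRange with hA3
  have f1 : Module.finrank ℚ A1 = Module.finrank ℚ K :=
    (LinearEquiv.finrank_eq (AlgEquiv.ofInjectiveField σ.toRatAlgHom).toLinearEquiv).symm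
  have f2 : Module.finrank ℚ A2 = Module.finrank ℚ K :=
    (LinearEquiv.finrank_eq (AlgEquiv.ofInjectiveField τ.toRatAlgHom).toLinearEquiv).symm
  have f3 : Module.finrank ℚ A3 = Module.finrank ℚ F :=
    (LinearEquiv.finrank_eq (AlgEquiv.ofInjectiveField ι.toRatAlgHom).toLinearEquiv).symm
  have hp : 0 < Module.finrank ℚ K := Module.finrank_pos
  have hq : 0 < Module.finrank ℚ F := Module.finrank_pos
  have g1 : FiniteDimensional ℚ A1 := Module.finite_of_finrank_pos (by omega)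
  have g2 : FiniteDimensional ℚ A2 := Module.finite_of_finrank_pos (by omega)
  have g3 : FiniteDimensional ℚ A3 := Module.finite_of_finrank_pos (by omega)
  have g12 : FiniteDimensional ℚ ↥(A1 ⊔ A2) := IntermediateField.finiteDimensional_sup A1 A2
  have g : FiniteDimensional ℚ ↥(A1 ⊔ A2 ⊔ A3) :=
    IntermediateField.finiteDimensional_sup (A1 ⊔ A2) A3
  have hN : NumberField ↥(A1 ⊔ A2 ⊔ A3) := { }
  refine ⟨↥(A1 ⊔ A2 ⊔ A3), inferInstance, hN, ?_, (A1 ⊔ A2 ⊔ A3).val.toRingHom, ?_⟩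
  · calc Module.finrank ℚ ↥(A1 ⊔ A2 ⊔ A3) ≤ Module.finrank ℚ ↥(A1 ⊔ A2) * Module.finrank ℚ A3 :=
          IntermediateField.finrank_sup_le _ _
      _ ≤ (Module.finrank ℚ A1 * Module.finrank ℚ A2) * Module.finrank ℚ A3 :=
          Nat.mul_le_mul_right _ (IntermediateField.finrank_sup_le _ _)
      _ ≤ d * d * e := by
          rw [f1, f2, f3]
          exact Nat.mul_le_mul (Nat.mul_le_mul hd hd) he
  have i1 : ∀ x, σ x ∈ A1 ⊔ A2 ⊔ A3 := fun x =>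
    (le_sup_left.trans le_sup_left : A1 ≤ A1 ⊔ A2 ⊔ A3) ⟨x, rfl⟩
  have i2 : ∀ x, τ x ∈ A1 ⊔ A2 ⊔ A3 := fun x =>
    (le_sup_right.trans le_sup_left : A2 ≤ A1 ⊔ A2 ⊔ A3) ⟨x, rfl⟩
  have i3 : ∀ x, ι x ∈ A1 ⊔ A2 ⊔ A3 := fun x =>
    (le_sup_right : A3 ≤ A1 ⊔ A2 ⊔ A3) ⟨x, rfl⟩
  exact ⟨σ.codRestrict (A1 ⊔ A2 ⊔ A3) i1, τ.codRestrict (A1 ⊔ A2 ⊔ A3) i2,
    ι.codRestrict (A1 ⊔ A2 ⊔ A3) i3, fun x => rfl, fun x => rfl, fun x => rfl⟩

end Pool.Agent.LibST91
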