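import Pool.Agent.LibST91T.TX6

/-!
[ST TX3n] The numerical part of `main_X`.
-/

set_option autoImplicit false

namespace Pool.Agent.LibST91

theorem numericX (d D0 κ1 κ2 : ℕ) (C1 C2 : ℝ) (hC1 : 1 ≤ C1) (hC2 : 0 < C2) :
    ∃ C : ℝ, 0 < C ∧ ∃ κ : ℕ, ∀ D l h H P q B : ℝ, 1 ≤ D → 1 ≤ l → 1 ≤ h → 1 ≤ H → 1 ≤ P →
      P ≤ 7 * 6 ^ d * h * (C1 * √D * Real.log (3 * D) ^ κ1 * l) → 1 ≤ q →
      q ≤ (C1 * D * ((d + 1) * H * l)) ^ κ1 → B = (C1 * D * ((d + 1) * H * l)) ^ κ1 + 3 →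
      C2 * P * Real.log (B * P) ^ κ2 + Real.log (3 * q) + D0 ≤
        C * (√D * l * h * Real.log (3 * D * l * h * H) ^ κ) := by
  set C3 : ℝ := 7 * 6 ^ d * C1 with hC3
  have hC3' : 1 ≤ C3 := by
    have h6 : (1 : ℝ) ≤ 6 ^ d := one_le_pow₀ (by norm_num)
    rw [hC3]
    nlinarith
  set E : ℝ := C1 * (d + 1) with hE
  have hE1 : 1 ≤ E := by
    rw [hE]
    have : (0 : ℝ) ≤ d := Nat.cast_nonneg d
    nlinarith
  set C4 : ℝ := 4 * E ^ κ1 * C3 with hC4
  have hC4' : 1 ≤ C4 := by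
    have h1 : (1 : ℝ) ≤ E ^ κ1 := one_le_pow₀ hE1
    rw [hC4]
    nlinarith
  set c5 : ℝ := Real.log C4 + (2 * κ1 + 1) with hc5
  have hc5' : 0 < c5 := by
    have := Real.log_nonneg hC4'
    positivity
  set c6 : ℝ := 2 + κ1 * Real.log E + κ1 with hc6
  have hlE : 0 ≤ Real.log E := Real.log_nonneg hE1
  have hc6' : 0 < c6 := by positivity
  refine ⟨C2 * C3 * c5 ^ κ2 + c6 + D0, by positivity, κ1 + κ2 + 1, ?_⟩
  intro D l h H P q B hD hl hh hH hP hPle hq hqle hB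
  set Z : ℝ := 3 * D * l * h * H with hZ
  have hDl : 1 ≤ D * l := one_le_mul_of_one_le_of_one_le hD hl
  have hDlh : 1 ≤ D * l * h := one_le_mul_of_one_le_of_one_le hDl hh
  have hDlhH : 1 ≤ D * l * h * H := one_le_mul_of_one_le_of_one_le hDlh hH
  have hZ3 : 3 ≤ Z := by rw [hZ]; nlinarith
  set W : ℝ := Real.log Z with hW
  have hW1 : 1 ≤ W := one_le_log hZ3
  have hWZ : W ≤ Z := (Real.log_le_sub_one_of_pos (by linarith)).trans (by linarith)
  have hsD : √D ≤ D := by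
    rw [Real.sqrt_le_left (by linarith)]
    nlinarith
  have hsD1 : 1 ≤ √D := Real.one_le_sqrt.2 hD
  have hl3D : Real.log (3 * D) ≤ W := by
    apply Real.log_le_log (by linarith)
    rw [hZ]
    have h1 : 1 ≤ l * h := one_le_mul_of_one_le_of_one_le hl hh
    have h2 : 1 ≤ l * h * H := one_le_mul_of_one_le_of_one_le h1 hH
    calc 3 * D ≤ 3 * D * (l * h * H) := le_mul_of_one_le_right (by linarith) h2
      _ = 3 * D * l * h * H := by ring
  have hl3D0 : 0 ≤ Real.log (3 * D) := Real.log_nonneg (by linarith)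
  -- bound of `P`
  have hP1 : P ≤ C3 * (√D * l * h * W ^ κ1) := by
    calc P ≤ 7 * 6 ^ d * h * (C1 * √D * Real.log (3 * D) ^ κ1 * l) := hPle
      _ ≤ 7 * 6 ^ d * h * (C1 * √D * W ^ κ1 * l) := by gcongr
      _ = _ := by rw [hC3]; ring
  have hslh : √D * l * h ≤ Z := by
    rw [hZ]
    calc √D * l * h ≤ D * l * h := by gcongr
      _ ≤ D * l * h * H := le_mul_of_one_le_right (by linarith) hH
      _ ≤ 3 * D * l * h * H := by nlinarith
  have hP2 : P ≤ C3 * Z ^ (κ1 + 1) := by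
    calc P ≤ C3 * (√D * l * h * W ^ κ1) := hP1
      _ ≤ C3 * (Z * Z ^ κ1) := by gcongr
      _ = _ := by rw [pow_succ]; ring
  -- bound of `q` and `B`
  have hq1 : (C1 * D * ((d + 1) * H * l)) ^ κ1 ≤ E ^ κ1 * Z ^ κ1 := by
    rw [← mul_pow]
    have h1 : C1 * D * ((d + 1) * H * l) = E * (D * l * H) := by rw [hE]; ring
    rw [h1]
    have h2 : D * l * H ≤ Z := by
      rw [hZ]
      have h3 : D * l * H ≤ D * l * H * (3 * h) := le_mul_of_one_le_right (by positivity) (by linarith)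
      linarith
    gcongr
  have hEZ : 1 ≤ E ^ κ1 * Z ^ κ1 := by
    rw [← mul_pow]
    exact one_le_pow₀ (one_le_mul_of_one_le_of_one_le hE1 (by linarith))
  have hB1 : B ≤ 4 * E ^ κ1 * Z ^ κ1 := by
    rw [hB]
    linarith
  have hB0 : 1 ≤ B := by
    rw [hB]
    have : 0 ≤ (C1 * D * ((d + 1) * H * l)) ^ κ1 := by positivity
    linarith
  have hBP : 1 ≤ B * P := one_le_mul_of_one_le_of_one_le hB0 hP
  have hlBP : Real.log (B * P) ≤ c5 * W := by
    have h1 : B * P ≤ C4 * Z ^ (2 * κ1 + 1) := by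
      calc B * P ≤ (4 * E ^ κ1 * Z ^ κ1) * (C3 * Z ^ (κ1 + 1)) := by gcongr
        _ = C4 * Z ^ (2 * κ1 + 1) := by rw [hC4]; ring
    have h2 := Real.log_le_log (by linarith) h1
    have h4 : Real.log (C4 * Z ^ (2 * κ1 + 1)) = Real.log C4 + (2 * κ1 + 1) * W := by
      rw [Real.log_mul (by positivity) (by positivity), Real.log_pow]
      push_cast
      ring
    have h3 : Real.log C4 ≤ Real.log C4 * W := le_mul_of_one_le_right (Real.log_nonneg hC4') hW1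
    rw [hc5]
    linarith
  have hlBP0 : 0 ≤ Real.log (B * P) := Real.log_nonneg hBP
  have hlq : Real.log (3 * q) ≤ c6 * W := by
    have h1 : 3 * q ≤ 3 * (E ^ κ1 * Z ^ κ1) := by linarith
    have h2 := Real.log_le_log (by linarith) h1
    have h5 : Real.log (3 * (E ^ κ1 * Z ^ κ1)) = Real.log 3 + (κ1 * Real.log E + κ1 * W) := by
      rw [Real.log_mul (by norm_num) (by positivity), Real.log_mul (by positivity) (by positivity),
        Real.log_pow, Real.log_pow]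
    rw [h5] at h2
    have h3 : Real.log 3 ≤ 2 := (Real.log_le_sub_one_of_pos (by norm_num)).trans (by norm_num)
    have h4 : κ1 * Real.log E ≤ κ1 * Real.log E * W := le_mul_of_one_le_right (by positivity) hW1
    rw [hc6]
    nlinarith
  set S : ℝ := √D * l * h with hS
  have hS1 : 1 ≤ S := by
    rw [hS]
    exact one_le_mul_of_one_le_of_one_le (one_le_mul_of_one_le_of_one_le hsD1 hl) hh
  have t1 : C2 * P * Real.log (B * P) ^ κ2 ≤ C2 * C3 * c5 ^ κ2 * (S * W ^ (κ1 + κ2 + 1)) := by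
    calc C2 * P * Real.log (B * P) ^ κ2 ≤ C2 * (C3 * (S * W ^ κ1)) * (c5 * W) ^ κ2 := by gcongr
      _ = C2 * C3 * c5 ^ κ2 * (S * W ^ (κ1 + κ2)) := by rw [mul_pow, pow_add]; ring
      _ ≤ C2 * C3 * c5 ^ κ2 * (S * W ^ (κ1 + κ2 + 1)) :=
        mul_le_mul_of_nonneg_left (mul_le_mul_of_nonneg_left
          (pow_le_pow_right₀ hW1 (by omega)) (by linarith)) (by positivity)
  have hWk : W ≤ W ^ (κ1 + κ2 + 1) := by
    conv_lhs => rw [← pow_one W]
    exact pow_le_pow_right₀ hW1 (by omega)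
  have hWk1 : 1 ≤ W ^ (κ1 + κ2 + 1) := one_le_pow₀ hW1
  have t2 : Real.log (3 * q) ≤ c6 * (S * W ^ (κ1 + κ2 + 1)) := by
    calc Real.log (3 * q) ≤ c6 * W := hlq
      _ ≤ c6 * (1 * W ^ (κ1 + κ2 + 1)) := by rw [one_mul]; gcongr
      _ ≤ c6 * (S * W ^ (κ1 + κ2 + 1)) := by gcongr
  have t3 : (D0 : ℝ) ≤ D0 * (S * W ^ (κ1 + κ2 + 1)) :=
    le_mul_of_one_le_right (Nat.cast_nonneg _) (one_le_mul_of_one_le_of_one_le hS1 hWk1)
  calc C2 * P * Real.log (B * P) ^ κ2 + Real.log (3 * q) + D0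
      ≤ C2 * C3 * c5 ^ κ2 * (S * W ^ (κ1 + κ2 + 1)) + c6 * (S * W ^ (κ1 + κ2 + 1)) +
        D0 * (S * W ^ (κ1 + κ2 + 1)) := by linarith
    _ = _ := by ring

end Pool.Agent.LibST91
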