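import Pool.Agent.LibST91T.TX6
import Pool.Agent.LibST91.NF6
import Pool.Agent.LibST91.BM3

/-!
[ST TX3u] Versions of `nf_main` and `baker_mult` with constants that are uniform for bounded parameters.
-/

set_option autoImplicit false

namespace Pool.Agent.LibST91

open NumberField

theorem one_le_discr (K : Type) [Field K] [NumberField K] : (1 : ℝ) ≤ |(discr K : ℝ)| := by
  rw [← Int.cast_abs]
  exact_mod_cast Int.one_le_abs (discr_ne_zero K)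

theorem one_le_gη {K : Type} [Field K] [NumberField K] (η : 𝓞 K) : 1 ≤ gη η := le_max_left _ _

theorem one_le_Gη {K : Type} [Field K] [NumberField K] (η : 𝓞 K) : 1 ≤ Gη η := by
  have h1 := one_le_gη η
  have h2 : 0 ≤ ∑ v : InfinitePlace K, |Real.log (v (η : K))| :=
    Finset.sum_nonneg fun _ _ => abs_nonneg _
  unfold Gη
  linarith

theorem nf_le (d : ℕ) : ∃ C : ℝ, 1 ≤ C ∧ ∃ κ : ℕ, ∀ (K : Type) [Field K] [NumberField K],
    Module.finrank ℚ K ≤ d → ∀ η : 𝓞 K, η ≠ 0 →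
    ∃ s : ℕ, s ≤ d ∧ ∃ (u : Fin s → (𝓞 K)ˣ) (j : Fin s → ℤ) (H : Fin s → ℝ) (q : ℕ)
      (c : Fin s → ℤ) (ζ : (𝓞 K)ˣ), 0 < q ∧ (∃ m : ℕ, 0 < m ∧ ζ ^ m = 1) ∧
      (η : K) ^ q = ((ζ : 𝓞 K) : K) * ∏ i, gel η (u i) (j i) ^ c i ∧
      (∀ i, 1 ≤ H i) ∧
      (∀ (i : Fin s) (v : InfinitePlace K), |Real.log (v (gel η (u i) (j i)))| ≤ H i) ∧
      (∀ i, |(j i : ℝ)| * gη η ≤ H i) ∧
      ∏ i, H i ≤ C * √|(discr K : ℝ)| * Real.log (3 * |(discr K : ℝ)|) ^ κ * gη η ∧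
      (q : ℝ) ≤ (C * |(discr K : ℝ)| * Gη η) ^ κ ∧
      ∀ i, |(c i : ℝ)| ≤ (C * |(discr K : ℝ)| * Gη η) ^ κ := by
  choose C hC κ h using nf_main
  set C' : ℝ := ∑ i ∈ Finset.range (d + 1), C i with hC'
  set κ' : ℕ := ∑ i ∈ Finset.range (d + 1), κ i with hκ'
  have hCi : ∀ i, i ≤ d → C i ≤ C' := fun i hi =>
    Finset.single_le_sum (f := C) (fun j _ => by linarith [hC j]) (Finset.mem_range.2 (by omega))
  have hκi : ∀ i, i ≤ d → κ i ≤ κ' := fun i hi =>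
    Finset.single_le_sum (f := κ) (fun j _ => Nat.zero_le _) (Finset.mem_range.2 (by omega))
  refine ⟨C', (hC 0).trans (hCi 0 (by omega)), κ', ?_⟩
  intro K _ _ hK η hη
  obtain ⟨s, hs, u, j, H, q, c, ζ, h1, h2, h3, h4, h5, h6, h7, h8, h9⟩ := h _ K rfl η hη
  have hD := one_le_discr K
  have hG := one_le_Gη η
  have hg := one_le_gη η
  have hl : 1 ≤ Real.log (3 * |(discr K : ℝ)|) := one_le_log (by linarith)
  have hc := hCi _ hK
  have hk := hκi _ hK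
  have hC0 := hC (Module.finrank ℚ K)
  have hb : (C (Module.finrank ℚ K) * |(discr K : ℝ)| * Gη η) ^ κ (Module.finrank ℚ K) ≤
      (C' * |(discr K : ℝ)| * Gη η) ^ κ' := by
    have h10 : 1 ≤ C (Module.finrank ℚ K) * |(discr K : ℝ)| * Gη η :=
      one_le_mul_of_one_le_of_one_le (one_le_mul_of_one_le_of_one_le hC0 hD) hG
    calc (C (Module.finrank ℚ K) * |(discr K : ℝ)| * Gη η) ^ κ (Module.finrank ℚ K)
        ≤ (C (Module.finrank ℚ K) * |(discr K : ℝ)| * Gη η) ^ κ' := pow_le_pow_right₀ h10 hk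
      _ ≤ _ := by gcongr
  refine ⟨s, hs.trans hK, u, j, H, q, c, ζ, h1, h2, h3, h4, h5, h6, ?_, h8.trans hb,
    fun i => (h9 i).trans hb⟩
  have h11 : Real.log (3 * |(discr K : ℝ)|) ^ κ (Module.finrank ℚ K) ≤
      Real.log (3 * |(discr K : ℝ)|) ^ κ' := pow_le_pow_right₀ hl hk
  refine h7.trans ?_
  have hC'0 : 0 ≤ C' := by linarith
  have hs0 : 0 ≤ √|(discr K : ℝ)| := Real.sqrt_nonneg _
  have hl0 : 0 ≤ Real.log (3 * |(discr K : ℝ)|) := by linarith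
  have hk0 : 0 ≤ Real.log (3 * |(discr K : ℝ)|) ^ κ (Module.finrank ℚ K) := pow_nonneg hl0 _
  have hg0 : 0 ≤ gη η := by linarith
  exact mul_le_mul_of_nonneg_right (mul_le_mul (mul_le_mul_of_nonneg_right hc hs0) h11 hk0
    (mul_nonneg hC'0 hs0)) hg0

theorem baker_le (M D : ℕ) : ∃ C : ℝ, 0 < C ∧ ∃ κ : ℕ, ∀ N : ℕ, N ≤ M →
    ∀ (L : Type) [Field L] [NumberField L], Module.finrank ℚ L ≤ D →
    ∀ (σ₀ : L →+* ℂ) (α : Fin N → L) (ℓ : Fin N → ℂ) (h : Fin N → ℝ),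
    (∀ i, Adm σ₀ (α i) (ℓ i) (h i)) →
    ∀ (b : Fin N → ℤ) (B : ℝ), 3 ≤ B → (∀ i, |(b i : ℝ)| ≤ B) →
    (∏ i, α i ^ b i) ≠ 1 →
    Real.exp (-(C * (∏ i, h i) * Real.log (B * ∏ i, h i) ^ κ)) ≤ ‖σ₀ (∏ i, α i ^ b i) - 1‖ := by
  choose C hC κ h using fun N => baker_mult N D
  set C' : ℝ := ∑ i ∈ Finset.range (M + 1), C i with hC'
  set κ' : ℕ := ∑ i ∈ Finset.range (M + 1), κ i with hκ'
  have hCi : ∀ i, i ≤ M → C i ≤ C' := fun i hi =>
    Finset.single_le_sum (f := C) (fun j _ => (hC j).le) (Finset.mem_range.2 (by omega))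
  have hκi : ∀ i, i ≤ M → κ i ≤ κ' := fun i hi =>
    Finset.single_le_sum (f := κ) (fun j _ => Nat.zero_le _) (Finset.mem_range.2 (by omega))
  refine ⟨C', lt_of_lt_of_le (hC 0) (hCi 0 (by omega)), κ', ?_⟩
  intro N hN L _ _ hL σ₀ α ℓ hh hadm b B hB hb hne
  have h1 := h N L hL σ₀ α ℓ hh hadm b B hB hb hne
  refine le_trans (Real.exp_le_exp.2 (neg_le_neg ?_)) h1
  have hp : 1 ≤ ∏ i, hh i := by
    rw [← Finset.prod_const_one (s := (Finset.univ : Finset (Fin N)))]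
    exact Finset.prod_le_prod (fun _ _ => by norm_num) (fun i _ => (hadm i).one_le)
  have hl : 1 ≤ Real.log (B * ∏ i, hh i) := one_le_log (by nlinarith)
  have hk := pow_le_pow_right₀ hl (hκi N hN)
  have hc := hCi N hN
  have hc0 := hC N
  have hk0 : 0 ≤ Real.log (B * ∏ i, hh i) ^ κ N := pow_nonneg (by linarith) _
  exact mul_le_mul (mul_le_mul_of_nonneg_right hc (by linarith)) hk hk0
    (mul_nonneg (by linarith) (by linarith))

end Pool.Agent.LibST91
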