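import Pool.Agent.LibST91T.TX0
import Pool.Agent.LibST91T.TX3a
import Pool.Agent.LibST91T.TX3n
import Pool.Agent.LibST91T.TX3u
import Pool.Agent.LibST91.BX5
import Pool.Agent.LibST91.SI6

/-!
[ST TX3] `MainX d e` from the lower bound for linear forms in logarithms and the number field block.
-/

set_option autoImplicit false

open NumberField

namespace Pool.Agent.LibST91

theorem adm_map {F : Type} [Field F] [NumberField F] {L : Type} [Field L] [NumberField L]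
    (σ₀ : L →+* ℂ) (ι : F →+* ℂ) (τ : F →+* L) (hτ : ∀ x, σ₀ (τ x) = ι x) (c : F) (ℓ : ℂ) (h : ℝ)
    (hc : Adm ι c ℓ h) : Adm σ₀ (τ c) ℓ h := by
  obtain ⟨h1, h2, h3, h4, h5, m, hm, hl, i1, i2⟩ := hc
  refine ⟨(map_ne_zero τ).2 h1, by rw [hτ]; exact h2, h3, h4, fun σ => ?_, m, hm, hl, ?_, ?_⟩
  · exact h5 (σ.comp τ)
  · have := i1.map τ.toIntAlgHom
    simpa using this
  · have := i2.map τ.toIntAlgHom
    simpa using this

theorem root_near_one {L : Type} [Field L] [NumberField L] (D0 : ℕ) (hd : Module.finrank ℚ L ≤ D0)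
    (σ₀ : L →+* ℂ) (β : L) (q : ℕ) (hq : 0 < q) (h : β ^ q = 1) (hne : β ≠ 1) :
    Real.exp (-(D0 : ℝ)) ≤ ‖σ₀ β - 1‖ := by
  have hint : IsIntegral ℤ β := IsIntegral.of_pow hq (by rw [h]; exact isIntegral_one)
  have h1 := liouville D0 hd σ₀ (β - 1) (sub_ne_zero.2 hne) (hint.sub isIntegral_one) 2 (by norm_num)
    (fun σ => by
      have h2 : ‖σ β‖ = 1 := by
        refine Complex.norm_eq_one_of_pow_eq_one (n := q) ?_ hq.ne'
        rw [← map_pow, h, map_one]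
      rw [map_sub, map_one]
      refine (norm_sub_le _ _).trans ?_
      rw [h2, norm_one]
      norm_num)
  rw [map_sub, map_one] at h1
  have h3 : (2 : ℝ) ^ (D0 - 1) ≤ Real.exp (D0 : ℝ) := by
    calc (2 : ℝ) ^ (D0 - 1) ≤ 2 ^ D0 := pow_le_pow_right₀ (by norm_num) (by omega)
      _ ≤ (Real.exp 1) ^ D0 := by
        gcongr
        exact (by norm_num : (2 : ℝ) ≤ 2.7).trans (by linarith [Real.exp_one_gt_d9])
      _ = Real.exp (D0 : ℝ) := by rw [← Real.exp_nat_mul, mul_one]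
  rw [Real.exp_neg]
  rw [inv_le_iff_one_le_mul₀ (Real.exp_pos _)]
  exact h1.trans (mul_le_mul_of_nonneg_left h3 (norm_nonneg _))

theorem Gη_le {K : Type} [Field K] [NumberField K] (d : ℕ) (hd : Module.finrank ℚ K ≤ d)
    (η : 𝓞 K) (hη : η ≠ 0) (H : ℝ) (hH : 1 ≤ H)
    (h : ∀ φ : K →+* ℂ, |Real.log ‖φ (η : K)‖| ≤ H) :
    Gη η ≤ (d + 1) * H * (1 + Real.log |((Algebra.norm ℤ η : ℤ) : ℝ)|) ∧
    gη η ≤ 1 + Real.log |((Algebra.norm ℤ η : ℤ) : ℝ)| ∧
    0 ≤ Real.log |((Algebra.norm ℤ η : ℤ) : ℝ)| := by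
  have hN : 0 ≤ Real.log |((Algebra.norm ℤ η : ℤ) : ℝ)| := by
    apply Real.log_nonneg
    rw [← Int.cast_abs]
    exact_mod_cast Int.one_le_abs (Algebra.norm_ne_zero_iff.2 hη)
  have hg : gη η ≤ 1 + Real.log |((Algebra.norm ℤ η : ℤ) : ℝ)| :=
    max_le (by linarith) (by linarith)
  refine ⟨?_, hg, hN⟩
  have hcard : Fintype.card (InfinitePlace K) ≤ d := by
    have h1 := InfinitePlace.card_add_two_mul_card_eq_rank K
    have h2 := InfinitePlace.card_eq_nrRealPlaces_add_nrComplexPlaces K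
    omega
  have hs : ∑ v : InfinitePlace K, |Real.log (v (η : K))| ≤ d * H := by
    calc ∑ v : InfinitePlace K, |Real.log (v (η : K))| ≤ ∑ _v : InfinitePlace K, H := by
          refine Finset.sum_le_sum fun v _ => ?_
          rw [← InfinitePlace.norm_embedding_eq]
          exact h _
      _ = Fintype.card (InfinitePlace K) * H := by simp
      _ ≤ d * H := by gcongr
  unfold Gη
  set l : ℝ := 1 + Real.log |((Algebra.norm ℤ η : ℤ) : ℝ)| with hl
  have hl1 : 1 ≤ l := by linarith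
  have h1 : (d : ℝ) * H ≤ d * H * l := le_mul_of_one_le_right (by positivity) hl1
  have h2 : l ≤ H * l := le_mul_of_one_le_left (by linarith) hH
  nlinarith

theorem main_X (d e : ℕ) : MainX d e := by
  obtain ⟨C1, hC1, κ1, hnf⟩ := nf_le d
  obtain ⟨C2, hC2, κ2, hbk⟩ := baker_le (d + 2) (d * d * e)
  obtain ⟨C, hC, κ, hnum⟩ := numericX d (d * d * e) κ1 κ2 C1 C2 hC1 hC2
  refine ⟨C, hC, κ, ?_⟩
  intro K _ _ hK F _ _ hF η hη σ τ ι c ℓ h hc H hH hφ hz
  obtain ⟨s, hs, u, j, Hh, q, cc, ζ, hq0, ⟨m, hm0, hm⟩, hrel, hH1, hHv, hHj, hprod, hqle, hcle⟩ :=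
    hnf K hK η hη
  obtain ⟨L, iL, iN, hL, σ₀, τ₁, τ₂, τ₃, hs1, hs2, hs3⟩ := compositum d e K hK F hF σ τ ι
  obtain ⟨hG, hg, hN0⟩ := Gη_le d hK η hη H hH hφ
  have hD := one_le_discr K
  have hgη := one_le_gη η
  have hGη := one_le_Gη η
  have hηK : (η : K) ≠ 0 := by simpa using hη
  set l : ℝ := 1 + Real.log |((Algebra.norm ℤ η : ℤ) : ℝ)| with hl
  have hl1 : 1 ≤ l := by linarith
  set D : ℝ := |(discr K : ℝ)| with hDdef
  -- the numbers
  set ζ' : L := τ₁ ((ζ : 𝓞 K) : K) / τ₂ ((ζ : 𝓞 K) : K) with hζ'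
  have hζm : ((ζ : 𝓞 K) : K) ^ m = 1 := by
    have h1 : ((ζ ^ m : (𝓞 K)ˣ) : 𝓞 K) = 1 := by rw [hm]; rfl
    have h2 := congrArg (fun x : 𝓞 K => (x : K)) h1
    simpa using h2
  have hζ'm : ζ' ^ m = 1 := by
    rw [hζ', div_pow, ← map_pow τ₁, ← map_pow τ₂, hζm, map_one, map_one, div_one]
  obtain ⟨ℓζ, hℓζ⟩ := adm_root σ₀ ζ' ⟨m, hm0, hζ'm⟩
  have hgel : ∀ i, ∃ ℓ' : ℂ, Adm σ₀ (τ₁ (gel η (u i) (j i)) / τ₂ (gel η (u i) (j i))) ℓ'
      (6 * Hh i) := fun i => adm_gel σ₀ τ₁ τ₂ η hη (u i) (j i) (Hh i) (hH1 i) (hHv i) (hHj i)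
  choose ℓg hℓg using hgel
  have hc' := adm_map σ₀ ι τ₃ hs3 c ℓ h hc
  set β : L := τ₃ c * (τ₁ (η : K) / τ₂ (η : K)) with hβ
  have hσβ : σ₀ β = ι c * σ (η : K) / τ (η : K) := by
    rw [hβ, map_mul, map_div₀, hs1, hs2, hs3, mul_div_assoc]
  have hβ1 : β ≠ 1 := by
    intro h1
    rw [h1, map_one] at hσβ
    exact hz hσβ.symm
  rw [← hσβ]
  -- the vectors
  set α : Fin (s + 2) → L := Fin.cons (τ₃ c) (Fin.cons ζ' (fun i =>
    τ₁ (gel η (u i) (j i)) / τ₂ (gel η (u i) (j i)))) with hα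
  set ℓv : Fin (s + 2) → ℂ := Fin.cons ℓ (Fin.cons ℓζ ℓg) with hℓv
  set hv : Fin (s + 2) → ℝ := Fin.cons h (Fin.cons 7 (fun i => 6 * Hh i)) with hhv
  set b : Fin (s + 2) → ℤ := Fin.cons (q : ℤ) (Fin.cons 1 cc) with hb
  have hadm : ∀ i, Adm σ₀ (α i) (ℓv i) (hv i) := by
    intro i
    refine Fin.cases ?_ (fun i => Fin.cases ?_ (fun i => ?_) i) i
    · exact hc'
    · exact hℓζ
    · exact hℓg i
  have hξ : ∏ i, α i ^ b i = β ^ q := by
    have h1 : (τ₁ (η : K) / τ₂ (η : K)) ^ q = ζ' * ∏ i,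
        (τ₁ (gel η (u i) (j i)) / τ₂ (gel η (u i) (j i))) ^ cc i := by
      rw [div_pow, ← map_pow τ₁, ← map_pow τ₂, hrel, map_mul, map_mul, map_prod, map_prod, hζ',
        mul_div_mul_comm, ← Finset.prod_div_distrib]
      congr 1
      refine Finset.prod_congr rfl fun i _ => ?_
      rw [map_zpow₀, map_zpow₀, div_zpow]
    rw [hβ, mul_pow, h1, Fin.prod_univ_succ, Fin.prod_univ_succ]
    simp only [hα, hb, Fin.cons_zero, Fin.cons_succ, zpow_natCast, zpow_one]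
  set P : ℝ := ∏ i, hv i with hP
  have hPeq : P = h * (7 * ∏ i, (6 * Hh i)) := by
    rw [hP, Fin.prod_univ_succ, Fin.prod_univ_succ]
    simp only [hhv, Fin.cons_zero, Fin.cons_succ]
  have hh1 : 1 ≤ h := hc.one_le
  have hHp : 1 ≤ ∏ i, Hh i := by
    rw [← Finset.prod_const_one (s := (Finset.univ : Finset (Fin s)))]
    exact Finset.prod_le_prod (fun _ _ => by norm_num) (fun i _ => hH1 i)
  have hP6 : ∏ i, (6 * Hh i) = 6 ^ s * ∏ i, Hh i := by
    rw [Finset.prod_mul_distrib]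
    simp
  have h6s : (1 : ℝ) ≤ 6 ^ s := one_le_pow₀ (by norm_num)
  have h6d : (6 : ℝ) ^ s ≤ 6 ^ d := pow_le_pow_right₀ (by norm_num) hs
  have hP1 : 1 ≤ P := by
    rw [hPeq, hP6]
    have h1 : 1 ≤ 6 ^ s * ∏ i, Hh i := one_le_mul_of_one_le_of_one_le h6s hHp
    nlinarith
  have hPle : P ≤ 7 * 6 ^ d * h * (C1 * √D * Real.log (3 * D) ^ κ1 * l) := by
    have hlD : 0 ≤ Real.log (3 * D) := Real.log_nonneg (by linarith)
    have h1 : ∏ i, Hh i ≤ C1 * √D * Real.log (3 * D) ^ κ1 * l := by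
      refine hprod.trans ?_
      have h2 : 0 ≤ C1 * √D * Real.log (3 * D) ^ κ1 := by positivity
      exact mul_le_mul_of_nonneg_left hg h2
    rw [hPeq, hP6]
    calc h * (7 * (6 ^ s * ∏ i, Hh i)) ≤ h * (7 * (6 ^ d *
          (C1 * √D * Real.log (3 * D) ^ κ1 * l))) := by gcongr
      _ = _ := by ring
  set B : ℝ := (C1 * D * ((d + 1) * H * l)) ^ κ1 + 3 with hB
  have hGle : (C1 * D * Gη η) ^ κ1 ≤ (C1 * D * ((d + 1) * H * l)) ^ κ1 := by gcongr
  have hB0 : 0 ≤ (C1 * D * ((d + 1) * H * l)) ^ κ1 := by positivity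
  have hB3 : 3 ≤ B := by rw [hB]; linarith
  have hqR : (1 : ℝ) ≤ q := by exact_mod_cast hq0
  have hqle' : (q : ℝ) ≤ (C1 * D * ((d + 1) * H * l)) ^ κ1 := hqle.trans hGle
  have hbB : ∀ i, |(b i : ℝ)| ≤ B := by
    intro i
    refine Fin.cases ?_ (fun i => Fin.cases ?_ (fun i => ?_) i) i
    · have : ((b 0 : ℤ) : ℝ) = q := by simp [hb]
      rw [this, abs_of_nonneg (by linarith)]
      linarith
    · have : ((b (Fin.succ 0) : ℤ) : ℝ) = 1 := by simp [hb]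
      rw [this, abs_one]
      linarith
    · have : ((b (Fin.succ (Fin.succ i)) : ℤ) : ℝ) = cc i := by simp [hb]
      rw [this]
      linarith [(hcle i).trans hGle]
  have hfin := hnum D l h H P q B hD hl1 hh1 hH hP1 hPle hqR hqle' rfl
  have hBP : 1 ≤ B * P := one_le_mul_of_one_le_of_one_le (by linarith) hP1
  have hlBP : 0 ≤ Real.log (B * P) ^ κ2 := pow_nonneg (Real.log_nonneg hBP) _
  have ht1 : 0 ≤ C2 * P * Real.log (B * P) ^ κ2 := by positivity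
  have ht2 : 0 ≤ Real.log (3 * (q : ℝ)) := Real.log_nonneg (by linarith)
  have ht3 : (0 : ℝ) ≤ ((d * d * e : ℕ) : ℝ) := Nat.cast_nonneg _
  by_cases hξ1 : β ^ q = 1
  · refine le_trans (Real.exp_le_exp.2 ?_) (root_near_one (d * d * e) hL σ₀ β q hq0 hξ1 hβ1)
    linarith
  · by_cases hsmall : ‖σ₀ β - 1‖ ≤ 1 / q
    · have h1 := hbk (s + 2) (by omega) L hL σ₀ α ℓv hv hadm b B hB3 hbB (by rw [hξ]; exact hξ1)
      rw [hξ, map_pow] at h1
      have h2 := pow_near_one (σ₀ β) q hq0 hsmall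
      have h3 : Real.exp (-(C2 * P * Real.log (B * P) ^ κ2)) ≤ 3 * q * ‖σ₀ β - 1‖ := h1.trans h2
      have h4 : Real.exp (-(C2 * P * Real.log (B * P) ^ κ2 + Real.log (3 * (q : ℝ)))) ≤
          ‖σ₀ β - 1‖ := by
        rw [neg_add, Real.exp_add, Real.exp_neg (Real.log (3 * (q : ℝ))),
          Real.exp_log (by linarith)]
        rw [← div_eq_mul_inv, div_le_iff₀ (by linarith)]
        linarith
      refine le_trans (Real.exp_le_exp.2 ?_) h4
      linarith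
    · push Not at hsmall
      have h1 : Real.exp (-Real.log (3 * (q : ℝ))) ≤ 1 / q := by
        rw [Real.exp_neg, Real.exp_log (by linarith), one_div]
        apply inv_anti₀ (by linarith)
        linarith
      refine le_trans (Real.exp_le_exp.2 ?_) (h1.trans hsmall.le)
      linarith

end Pool.Agent.LibST91
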