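import Pool.Agent.LibST91.Defs

/-!
[ST TX0] The statement used by the two applications: a lower bound for `c σ(η) / τ(η) - 1`.
-/

set_option autoImplicit false

open NumberField

namespace Pool.Agent.LibST91

/-- The lower bound for `c σ(η) / τ(η) - 1`, `η` a nonzero integer of a number field `K` of degree at
most `d`, `c` a number of a field `F` of degree at most `e`. The exponent is linear in the square
root of the discriminant of `K`, in the logarithm of the norm of `η` and in the height of `c`. -/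
def MainX (d e : ℕ) : Prop := ∃ C : ℝ, 0 < C ∧ ∃ κ : ℕ,
  ∀ (K : Type) [Field K] [NumberField K], Module.finrank ℚ K ≤ d →
  ∀ (F : Type) [Field F] [NumberField F], Module.finrank ℚ F ≤ e →
  ∀ η : 𝓞 K, η ≠ 0 → ∀ (σ τ : K →+* ℂ) (ι : F →+* ℂ) (c : F) (ℓ : ℂ) (h : ℝ), Adm ι c ℓ h →
  ∀ H : ℝ, 1 ≤ H → (∀ φ : K →+* ℂ, |Real.log ‖φ (η : K)‖| ≤ H) →
  ι c * σ (η : K) / τ (η : K) ≠ 1 →
  Real.exp (-(C * (√|(discr K : ℝ)| * (1 + Real.log |((Algebra.norm ℤ η : ℤ) : ℝ)|) * h *
    Real.log (3 * |(discr K : ℝ)| * (1 + Real.log |((Algebra.norm ℤ η : ℤ) : ℝ)|) * h * H) ^ κ))) ≤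
    ‖ι c * σ (η : K) / τ (η : K) - 1‖

end Pool.Agent.LibST91
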