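import Mathlib

/-!
[ST TX1] The field of a monic irreducible polynomial and its discriminant.
-/

set_option autoImplicit false

open NumberField Polynomial

namespace Pool.Agent.LibST91

theorem discr_dvd_norm (K : Type) [Field K] [NumberField K] (θ : 𝓞 K)
    (hθ : Algebra.adjoin ℚ {(θ : K)} = ⊤) :
    (discr K).natAbs ∣ (Algebra.norm ℤ (aeval θ (derivative (minpoly ℤ θ)))).natAbs := by
  rw [← absNorm_differentIdeal K (𝓞 K), ← Ideal.absNorm_span_singleton]
  refine Ideal.absNorm_dvd_absNorm_of_le ?_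
  rw [Ideal.span_singleton_le_iff_mem]
  exact aeval_derivative_mem_differentIdeal ℤ ℚ K θ hθ

theorem field_setup (f : ℤ[X]) (hf : f.Monic) (hirr : Irreducible (f.map (algebraMap ℤ ℚ))) :
    ∃ (K : Type) (_ : Field K) (_ : NumberField K) (θ : 𝓞 K), Module.finrank ℚ K = f.natDegree ∧
      minpoly ℤ θ = f ∧ Algebra.adjoin ℚ {(θ : K)} = ⊤ ∧
      ∀ w : ℂ, aeval w f = 0 → ∃ σ : K →+* ℂ, σ (θ : K) = w := by
  have : Fact (Irreducible (f.map (algebraMap ℤ ℚ))) := ⟨hirr⟩
  set g : ℚ[X] := f.map (algebraMap ℤ ℚ) with hg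
  have hgm : g.Monic := hf.map _
  have hg0 : g ≠ 0 := hgm.ne_zero
  obtain ⟨K, iK, iA, θ, h1, h2, h3, h4⟩ : ∃ (K : Type) (_ : Field K) (_ : Algebra ℚ K) (θ : K),
      Module.finrank ℚ K = f.natDegree ∧ minpoly ℚ θ = g ∧ Algebra.adjoin ℚ {(θ : K)} = ⊤ ∧
      ∀ w : ℂ, aeval w g = 0 → ∃ σ : K →+* ℂ, σ (θ : K) = w := by
    refine ⟨AdjoinRoot g, inferInstance, AdjoinRoot.instAlgebra (R := ℚ) (S := ℚ) g,
      AdjoinRoot.root g, ?_, ?_, ?_, ?_⟩
    · rw [(AdjoinRoot.powerBasis hg0).finrank, AdjoinRoot.powerBasis_dim, hg,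
        natDegree_map_eq_of_injective (algebraMap ℤ ℚ).injective_int]
    · rw [AdjoinRoot.minpoly_root hg0, hgm.leadingCoeff, inv_one, C_1, mul_one]
    · exact AdjoinRoot.adjoinRoot_eq_top
    · intro w hw
      exact ⟨AdjoinRoot.lift (algebraMap ℚ ℂ) w hw, AdjoinRoot.lift_root _⟩
  have hc : CharZero K := charZero_of_injective_algebraMap (algebraMap ℚ K).injective
  have hA : iA = DivisionRing.toRatAlgebra := Subsingleton.elim _ _
  subst hA
  have hd : f.natDegree ≠ 0 := by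
    intro h
    have : f = 1 := eq_one_of_monic_natDegree_zero hf h
    rw [hg, this, Polynomial.map_one] at hirr
    exact hirr.not_isUnit isUnit_one
  have hfin : FiniteDimensional ℚ K := Module.finite_of_finrank_pos (by omega)
  have hnf : NumberField K := { }
  have hr : aeval θ f = 0 := by
    rw [← aeval_map_algebraMap ℚ, ← hg, ← h2, minpoly.aeval]
  have hint : IsIntegral ℤ θ := ⟨f, hf, by rw [← aeval_def]; exact hr⟩
  have hmin : minpoly ℤ θ = f := by
    have h5 := minpoly.isIntegrallyClosed_eq_field_fractions' ℚ hint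
    rw [h2, hg] at h5
    exact (map_injective _ (algebraMap ℤ ℚ).injective_int h5).symm
  refine ⟨K, iK, hnf, ⟨θ, hint⟩, h1, ?_, h3, ?_⟩
  · rw [← hmin]
    exact (minpoly.algebraMap_eq (A := ℤ) (B := 𝓞 K) (B' := K) RingOfIntegers.coe_injective
      ⟨θ, hint⟩).symm
  · intro w hw
    refine h4 w ?_
    rw [hg, aeval_map_algebraMap, hw]

/-- The conjugates of an element of the field. -/
theorem emb_aeval (K : Type) [Field K] [NumberField K] (θ : 𝓞 K) (σ : K →+* ℂ) (p : ℤ[X]) :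
    σ ((aeval θ p : 𝓞 K) : K) = aeval (σ (θ : K)) p := by
  have h := aeval_algebraMap_apply K θ p
  have h2 := hom_eval₂ p (algebraMap ℤ K) σ (θ : K)
  rw [← aeval_def] at h2
  rw [show ((aeval θ p : 𝓞 K) : K) = aeval (θ : K) p from h.symm, h2, aeval_def]
  congr 1
  exact RingHom.ext_int _ _

theorem emb_ext (K : Type) [Field K] [NumberField K] (θ : K)
    (hθ : Algebra.adjoin ℚ {(θ : K)} = ⊤) (σ τ : K →+* ℂ) (h : σ θ = τ θ) : σ = τ := by
  have h1 : σ.toRatAlgHom = τ.toRatAlgHom :=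
    AlgHom.ext_of_adjoin_eq_top hθ (fun x hx => by
      rw [Set.mem_singleton_iff] at hx
      rw [hx]
      exact h)
  ext x
  exact DFunLike.congr_fun h1 x

theorem norm_prod (f : ℤ[X]) (n : ℕ) (hn : f.natDegree = n) (t : Fin n → ℂ)
    (ht : Function.Injective t) (hft : ∀ i, aeval (t i) f = 0)
    (K : Type) [Field K] [NumberField K] (θ : 𝓞 K) (hK : Module.finrank ℚ K = f.natDegree)
    (hemb : ∀ w : ℂ, aeval w f = 0 → ∃ σ : K →+* ℂ, σ (θ : K) = w) (p : ℤ[X]) :
    ((Algebra.norm ℤ (aeval θ p : 𝓞 K) : ℤ) : ℂ) = ∏ i, aeval (t i) p := by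
  choose σ hσ using fun i => hemb (t i) (hft i)
  have h1 : ((Algebra.norm ℤ (aeval θ p : 𝓞 K) : ℤ) : ℂ) =
      algebraMap ℚ ℂ (Algebra.norm ℚ ((aeval θ p : 𝓞 K) : K)) := by
    rw [← Algebra.coe_norm_int]
    simp
  rw [h1, Algebra.norm_eq_prod_embeddings ℚ ℂ]
  have hinj : Function.Injective (fun i => (σ i).toRatAlgHom) := by
    intro i j hij
    apply ht
    have h2 := DFunLike.congr_fun hij (θ : K)
    have h3 : σ i (θ : K) = σ j (θ : K) := h2
    rw [hσ, hσ] at h3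
    exact h3
  have hbij : Function.Bijective (fun i => (σ i).toRatAlgHom) := by
    rw [Fintype.bijective_iff_injective_and_card]
    refine ⟨hinj, ?_⟩
    rw [Fintype.card_fin, AlgHom.card, hK, hn]
  rw [← hbij.prod_comp (fun τ : K →ₐ[ℚ] ℂ => τ ((aeval θ p : 𝓞 K) : K))]
  refine Finset.prod_congr rfl fun i _ => ?_
  have h4 := emb_aeval K θ (σ i) p
  rw [hσ] at h4
  exact h4

end Pool.Agent.LibST91
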