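import Pool.Agent.LibST91T.TX6

/-!
[ST TX4a] The final numerical step of the cubic case.
-/

set_option autoImplicit false

namespace Pool.Agent.LibST91

theorem cubic_numeric (C : ℝ) (hC : 0 < C) (κ : ℕ) : ∃ C' : ℝ, 1 ≤ C' ∧ ∀ n X : ℝ, 1 ≤ n → 1 ≤ X →
    3 / 2 * X ≤ 1 / 2 * Real.log (108 * n) + C * (√(108 * n) * (1 + Real.log (108 * n)) * 4 *
      Real.log (3 * (108 * n) * (1 + Real.log (108 * n)) * 4 * X) ^ κ) →
    X ≤ C' * √n * Real.log (n + 2) ^ (κ + 1) := by
  obtain ⟨C2, hC2, hit⟩ := log_iter κ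
  set C1 : ℝ := 1297 + 30 * C * 2 ^ κ with hC1
  have hC1' : 1297 ≤ C1 := by
    have : 0 ≤ 30 * C * 2 ^ κ := by positivity
    linarith
  have hlC1 : 1 ≤ Real.log C1 := one_le_log (by linarith)
  refine ⟨C2 * (C1 * 7 * (Real.log C1 + 8) ^ κ), ?_, fun n X hn hX h => ?_⟩
  · have h1 : (1 : ℝ) ≤ (Real.log C1 + 8) ^ κ := one_le_pow₀ (by linarith)
    nlinarith [mul_le_mul hC2 (mul_le_mul (show (1 : ℝ) ≤ C1 * 7 by linarith) h1 (by norm_num)
      (by linarith)) (by norm_num) (by linarith)]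
  have hn0 : 0 < n := by linarith
  set s : ℝ := √n with hs
  have hs1 : 1 ≤ s := Real.one_le_sqrt.2 hn
  have hss : s ^ 2 = n := Real.sq_sqrt hn0.le
  set l : ℝ := 1 + Real.log (108 * n) with hl
  have hl1 : 1 ≤ l := by
    have : 0 ≤ Real.log (108 * n) := Real.log_nonneg (by linarith)
    linarith
  have hl3 : Real.log (n + 2) ≥ 1 := one_le_log (by linarith)
  have hlog108 : Real.log 108 ≤ 5 := by
    rw [Real.log_le_iff_le_exp (by norm_num)]
    have h1 := Real.exp_one_gt_d9
    calc (108 : ℝ) ≤ (2.7 : ℝ) ^ 5 := by norm_num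
      _ ≤ (Real.exp 1) ^ 5 := by gcongr; linarith
      _ = Real.exp 5 := by rw [← Real.exp_nat_mul]; norm_num
  have hlogn : Real.log n ≤ Real.log (n + 2) := Real.log_le_log hn0 (by linarith)
  have hl6 : l ≤ 6 * Real.log (n + 2) + Real.log (n + 2) := by
    rw [hl, Real.log_mul (by norm_num) hn0.ne']
    nlinarith
  set A : ℝ := C1 * (s * l) with hA
  have hsl : 1 ≤ s * l := by nlinarith
  have hA1 : 1297 ≤ A := by rw [hA]; nlinarith
  have hAX : 1297 ≤ A * X := by nlinarith
  have hlAX : 1 ≤ Real.log (A * X) := one_le_log (by linarith)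
  -- the argument of the logarithm
  have h1 : Real.log (3 * (108 * n) * l * 4 * X) ≤ 2 * Real.log (A * X) := by
    rw [← Real.log_rpow (by linarith)]
    apply Real.log_le_log (by positivity)
    rw [show (2 : ℝ) = ((2 : ℕ) : ℝ) by norm_num, Real.rpow_natCast]
    have h2 : 3 * (108 * n) * l * 4 * X = 1296 * ((s * l) * s * X) := by
      rw [← hss]; ring
    rw [h2]
    have h3 : (s * l) * s * X ≤ (s * l) * (s * l) * (X * X) := by
      have h4 : s ≤ s * l := le_mul_of_one_le_right (by linarith) hl1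
      have h5 : X ≤ X * X := le_mul_of_one_le_right (by linarith) hX
      gcongr
    have h6 : (1296 : ℝ) ≤ C1 * C1 := by nlinarith
    calc 1296 * ((s * l) * s * X) ≤ (C1 * C1) * ((s * l) * (s * l) * (X * X)) := by gcongr
      _ = (A * X) ^ 2 := by rw [hA]; ring
  have hlog0 : 0 ≤ Real.log (3 * (108 * n) * l * 4 * X) := by
    apply Real.log_nonneg
    nlinarith [mul_le_mul hl1 hX (by norm_num) (by linarith)]
  have h2 : √(108 * n) ≤ 11 * s := by
    rw [Real.sqrt_le_left (by positivity)]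
    nlinarith
  have h3 : X ≤ A * Real.log (A * X) ^ κ := by
    have h4 : Real.log (3 * (108 * n) * l * 4 * X) ^ κ ≤ 2 ^ κ * Real.log (A * X) ^ κ := by
      rw [← mul_pow]
      exact pow_le_pow_left₀ hlog0 h1 κ
    have h5 : C * (√(108 * n) * l * 4 * Real.log (3 * (108 * n) * l * 4 * X) ^ κ) ≤
        C * (11 * s * l * 4 * (2 ^ κ * Real.log (A * X) ^ κ)) := by
      gcongr
    have h6 : 1 / 2 * Real.log (108 * n) ≤ s * l := by
      have : Real.log (108 * n) = l - 1 := by rw [hl]; ring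
      rw [this]
      nlinarith
    have h7 : 1 ≤ Real.log (A * X) ^ κ := one_le_pow₀ hlAX
    have h8 : s * l ≤ s * l * Real.log (A * X) ^ κ := le_mul_of_one_le_right (by positivity) h7
    have h9 : X ≤ 2 / 3 * (s * l * Real.log (A * X) ^ κ) +
        2 / 3 * (C * (11 * s * l * 4 * (2 ^ κ * Real.log (A * X) ^ κ))) := by
      linarith
    refine h9.trans (le_of_sub_nonneg ?_)
    have h10 : A * Real.log (A * X) ^ κ - (2 / 3 * (s * l * Real.log (A * X) ^ κ) +
        2 / 3 * (C * (11 * s * l * 4 * (2 ^ κ * Real.log (A * X) ^ κ)))) =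
        (s * l * Real.log (A * X) ^ κ) * (1297 - 2 / 3 + (30 - 88 / 3) * (C * 2 ^ κ)) := by
      rw [hA, hC1]; ring
    rw [h10]
    positivity
  have h4 := hit A X (by linarith) hX h3
  have h5 : Real.log A ≤ (Real.log C1 + 8) * Real.log (n + 2) := by
    rw [hA, Real.log_mul (by linarith) (by linarith), Real.log_mul (by linarith) (by linarith)]
    have h6 : Real.log s ≤ Real.log (n + 2) := by
      apply Real.log_le_log (by linarith)
      nlinarith
    have h7 : Real.log l ≤ 7 * Real.log (n + 2) := by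
      have := Real.log_le_sub_one_of_pos (x := l) (by linarith)
      linarith
    nlinarith
  have hlA : 0 ≤ Real.log A := Real.log_nonneg (by linarith)
  calc X ≤ C2 * (A * Real.log A ^ κ) := h4
    _ ≤ C2 * (C1 * (s * (7 * Real.log (n + 2))) * ((Real.log C1 + 8) * Real.log (n + 2)) ^ κ) := by
        rw [hA]
        gcongr
        linarith
    _ = (C2 * (C1 * 7 * (Real.log C1 + 8) ^ κ)) * s * Real.log (n + 2) ^ (κ + 1) := by
        rw [mul_pow, pow_succ]; ring

end Pool.Agent.LibST91
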