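import Mathlib

/-!
[ST TX4b] The roots of a monic polynomial as a vector, and a sorted version.
-/

set_option autoImplicit false

open Polynomial

namespace Pool.Agent.LibST91

theorem exists_roots (n : ℕ) (p : ℂ[X]) (hm : p.Monic) (hn : p.natDegree = n) :
    ∃ t : Fin n → ℂ, p = ∏ i, (X - C (t i)) := by
  have hs := IsAlgClosed.splits p
  have hc : p.roots.card = n := by
    rw [← hn]
    exact hs.natDegree_eq_card_roots.symm
  have h1 := hs.eq_prod_roots_of_monic hm
  set l := p.roots.toList with hl
  have hll : l.length = n := by rw [hl, Multiset.length_toList, hc]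
  have h2 : p.roots = (l : Multiset ℂ) := by rw [hl, Multiset.coe_toList]
  clear_value l
  subst hll
  refine ⟨l.get, ?_⟩
  rw [h1, h2, Multiset.map_coe, Multiset.prod_coe]
  conv_lhs => rw [← List.ofFn_get l, List.map_ofFn, List.prod_ofFn]
  rfl

/-- The roots of an integral monic polynomial, sorted by the absolute value of the derivative. -/
theorem exists_roots_sorted (n : ℕ) (f : ℤ[X]) (hm : f.Monic) (hn : f.natDegree = n) (g : ℂ → ℝ) :
    ∃ t : Fin n → ℂ, (∀ i, aeval (t i) f = 0) ∧
      f.map (algebraMap ℤ ℂ) = ∏ i, (X - C (t i)) ∧ Monotone (fun i => g (t i)) := by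
  obtain ⟨t, ht⟩ := exists_roots n (f.map (algebraMap ℤ ℂ)) (hm.map _) (by rw [hm.natDegree_map, hn])
  set s := Tuple.sort (fun i => g (t i)) with hs
  refine ⟨t ∘ s, fun i => ?_, ?_, Tuple.monotone_sort (fun i => g (t i))⟩
  · rw [← eval_map_algebraMap, ht, eval_prod]
    exact Finset.prod_eq_zero (Finset.mem_univ (s i)) (by simp)
  · rw [ht]
    exact (Equiv.prod_comp s (fun i => (X - C (t i)))).symm

end Pool.Agent.LibST91
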