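import Pool.Agent.LibST91T.TX2
import Pool.Agent.LibST91T.TX3
import Pool.Agent.LibST91T.TX4a
import Pool.Agent.LibST91T.TX4b

/-!
[ST TX4] The cubic case.
-/

set_option autoImplicit false

open NumberField Polynomial

namespace Pool.Agent.LibST91

/-- The cubic polynomial of an integral point. -/
noncomputable def cub (x y : ℤ) : ℤ[X] := X ^ 3 - C (3 * x) * X + C (2 * y)

theorem cub_monic (x y : ℤ) : (cub x y).Monic := by
  unfold cub
  monicity!

theorem cub_natDegree (x y : ℤ) : (cub x y).natDegree = 3 := by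
  unfold cub
  compute_degree!

theorem cub_deriv (x y : ℤ) (z : ℂ) : aeval z (derivative (cub x y)) = 3 * z ^ 2 - 3 * x := by
  have h3 : aeval z (3 : ℤ[X]) = 3 := map_ofNat _ 3
  simp [cub, h3]

theorem cub_facts (x y : ℤ) (t : Fin 3 → ℂ)
    (ht : (cub x y).map (algebraMap ℤ ℂ) = ∏ i, (X - C (t i))) :
    t 0 + t 1 + t 2 = 0 ∧ t 0 * t 1 + t 0 * t 2 + t 1 * t 2 = -3 * x ∧ t 0 * t 1 * t 2 = -2 * y := by
  have h : ∀ z : ℂ, z ^ 3 - 3 * x * z + 2 * y = (z - t 0) * (z - t 1) * (z - t 2) := by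
    intro z
    have h1 := congrArg (eval z) ht
    rw [eval_prod, Fin.prod_univ_three] at h1
    simpa [cub] using h1
  have h0 := h 0
  have h1 := h 1
  have h2 := h (-1)
  refine ⟨?_, ?_, ?_⟩
  · linear_combination (1 / 2 : ℂ) * h1 + (1 / 2 : ℂ) * h2 - h0
  · linear_combination (1 / 2 : ℂ) * h2 - (1 / 2 : ℂ) * h1
  · linear_combination h0

/-- The adjusted constant `-1`. -/
theorem adm_neg_one : Adm (algebraMap ℚ ℂ) (-1 : ℚ) (Real.pi * Complex.I) 4 := by
  refine ⟨by norm_num, by rw [Complex.exp_pi_mul_I]; simp, by norm_num, ?_, ?_, ?_⟩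
  · rw [norm_mul, Complex.norm_I, mul_one, Complex.norm_real, Real.norm_eq_abs,
      abs_of_pos Real.pi_pos]
    exact Real.pi_le_four
  · intro σ
    simp
  · refine ⟨1, one_pos, by simp, ?_, ?_⟩
    · simpa using (isIntegral_one (R := ℤ) (B := ℚ)).neg
    · simpa using (isIntegral_one (R := ℤ) (B := ℚ)).neg

theorem inj_fin3 (t : Fin 3 → ℂ) (h01 : t 0 ≠ t 1) (h02 : t 0 ≠ t 2) (h12 : t 1 ≠ t 2) :
    Function.Injective t := by
  intro i j hij
  fin_cases i <;> fin_cases j <;> simp_all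

theorem mordell (hX : MainX 3 1) : ∃ C : ℝ, 0 < C ∧ ∃ κ : ℕ, ∀ x y : ℤ, y ^ 2 ≠ x ^ 3 →
    Real.log |(x : ℝ)| ≤ C * √|((y ^ 2 - x ^ 3 : ℤ) : ℝ)| *
      Real.log (|((y ^ 2 - x ^ 3 : ℤ) : ℝ)| + 2) ^ κ := by
  obtain ⟨C, hC, κ, hX⟩ := hX
  obtain ⟨C', hC', hnum⟩ := cubic_numeric C hC κ
  refine ⟨C' + 6, by linarith, κ + 1, fun x y hxy => ?_⟩
  set k : ℤ := y ^ 2 - x ^ 3 with hk
  have hk0 : k ≠ 0 := sub_ne_zero.2 hxy
  set n : ℝ := |(k : ℝ)| with hn
  have hn1 : 1 ≤ n := by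
    rw [hn, ← Int.cast_abs]
    exact_mod_cast Int.one_le_abs hk0
  have hs1 : 1 ≤ √n := Real.one_le_sqrt.2 hn1
  have hl1 : 1 ≤ Real.log (n + 2) := one_le_log (by linarith)
  have hl2 : 1 ≤ Real.log (n + 2) ^ (κ + 1) := one_le_pow₀ hl1
  -- it is enough to bound `log |x|` by one of the two quantities
  obtain ⟨t, hroot, hprod, hmono⟩ := exists_roots_sorted 3 (cub x y) (cub_monic x y)
    (cub_natDegree x y) (fun z => ‖aeval z (derivative (cub x y))‖)
  obtain ⟨e1, e2, e3⟩ := cub_facts x y t hprod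
  have hkc : (k : ℂ) = (y : ℂ) ^ 2 - (x : ℂ) ^ 3 := by rw [hk]; push_cast; ring
  set a : Fin 3 → ℂ := fun i => aeval (t i) (derivative (cub x y)) with ha
  have ha' : ∀ i, a i = 3 * t i ^ 2 - 3 * x := fun i => cub_deriv x y (t i)
  have ht2 : t 2 = -t 0 - t 1 := by linear_combination e1
  have hP : a 0 * a 1 * a 2 = 108 * k := by
    rw [ha', ha', ha', hkc]
    have hx : (x : ℂ) = -(t 0 * t 1 + t 0 * t 2 + t 1 * t 2) / 3 := by linear_combination (1 / 3 : ℂ) * e2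
    have hy : (y : ℂ) = -(t 0 * t 1 * t 2) / 2 := by linear_combination (1 / 2 : ℂ) * e3
    rw [hx, hy, ht2]
    ring
  have hS : a 1 * a 2 + a 0 * a 2 + a 0 * a 1 = 0 := by
    rw [ha', ha', ha']
    have hx : (x : ℂ) = -(t 0 * t 1 + t 0 * t 2 + t 1 * t 2) / 3 := by linear_combination (1 / 3 : ℂ) * e2
    rw [hx, ht2]
    ring
  have h9 : 9 * (x : ℂ) = a 0 + a 1 + a 2 := by
    rw [ha', ha', ha']
    have hx : (x : ℂ) = -(t 0 * t 1 + t 0 * t 2 + t 1 * t 2) / 3 := by linear_combination (1 / 3 : ℂ) * e2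
    rw [hx, ht2]
    ring
  have hkc0 : (k : ℂ) ≠ 0 := by exact_mod_cast hk0
  have hP0 : a 0 * a 1 * a 2 ≠ 0 := by rw [hP]; exact mul_ne_zero (by norm_num) hkc0
  have a0 : a 0 ≠ 0 := fun h => hP0 (by rw [h]; ring)
  have a1 : a 1 ≠ 0 := fun h => hP0 (by rw [h]; ring)
  have a2 : a 2 ≠ 0 := fun h => hP0 (by rw [h]; ring)
  have d0 : a 0 = (t 0 - t 1) * (t 0 - t 2) := by rw [ha']; linear_combination -e2 + 2 * t 0 * e1
  have d1 : a 1 = (t 1 - t 0) * (t 1 - t 2) := by rw [ha']; linear_combination -e2 + 2 * t 1 * e1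
  have t01 : t 0 ≠ t 1 := fun h => a0 (by rw [d0, h]; ring)
  have t02 : t 0 ≠ t 2 := fun h => a0 (by rw [d0, h]; ring)
  have t12 : t 1 ≠ t 2 := fun h => a1 (by rw [d1, h]; ring)
  have hinj : Function.Injective t := inj_fin3 t t01 t02 t12
  have m01 : ‖a 0‖ ≤ ‖a 1‖ := hmono (show (0 : Fin 3) ≤ 1 by decide)
  have m12 : ‖a 1‖ ≤ ‖a 2‖ := hmono (show (1 : Fin 3) ≤ 2 by decide)
  have p0 : 0 < ‖a 0‖ := norm_pos_iff.2 a0
  have p1 : 0 < ‖a 1‖ := norm_pos_iff.2 a1
  have p2 : 0 < ‖a 2‖ := norm_pos_iff.2 a2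
  have hN : ‖a 0‖ * ‖a 1‖ * ‖a 2‖ = 108 * n := by
    rw [← norm_mul, ← norm_mul, hP, norm_mul, Complex.norm_intCast, hn]
    norm_num
  have hx2 : |(x : ℝ)| ≤ ‖a 2‖ := by
    have h1 : ‖(9 : ℂ) * x‖ ≤ ‖a 0‖ + ‖a 1‖ + ‖a 2‖ := by
      rw [h9]
      exact norm_add₃_le
    rw [norm_mul, Complex.norm_intCast] at h1
    norm_num at h1
    nlinarith [abs_nonneg (x : ℝ)]
  have hlx : Real.log |(x : ℝ)| ≤ Real.log ‖a 2‖ ∨ x = 0 := by
    rcases eq_or_ne x 0 with h | h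
    · exact Or.inr h
    · exact Or.inl (Real.log_le_log (abs_pos.2 (by exact_mod_cast h)) hx2)
  have hpos : 0 ≤ (C' + 6) * √n * Real.log (n + 2) ^ (κ + 1) := by positivity
  have hsl : 1 ≤ √n * Real.log (n + 2) ^ (κ + 1) := by nlinarith
  rcases hlx with hlx | hx0
  swap
  · rw [hx0]
    simpa using hpos
  refine hlx.trans ?_
  by_cases hb : ‖a 1‖ < 1
  · have hsm : ∀ i, i ≠ 2 → ‖aeval (t i) (derivative (cub x y))‖ < 1 := by
      intro i hi
      fin_cases i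
      · exact lt_of_le_of_lt m01 hb
      · exact hb
      · exact absurd rfl hi
    obtain ⟨K, iK, iN, η, hfin, hη, hD, hnorm, hemb, hall⟩ := field_eta 3 (cub x y)
      (cub_monic x y) (cub_natDegree x y) t hinj hroot 2 hsm
    obtain ⟨σ, hσ⟩ := hemb 0
    obtain ⟨τ, hτ⟩ := hemb 1
    have hσ' : σ (η : K) = a 0 := hσ
    have hτ' : τ (η : K) = a 1 := hτ
    have hNn : |((Algebra.norm ℤ η : ℤ) : ℝ)| = 108 * n := by
      have h1 : ((Algebra.norm ℤ η : ℤ) : ℂ) = 108 * k := by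
        rw [hnorm, Fin.prod_univ_three]
        exact hP
      have h2 := congrArg norm h1
      rw [Complex.norm_intCast, norm_mul, Complex.norm_intCast] at h2
      rw [h2, hn]
      norm_num
    rw [hNn] at hD
    have hlog3 : Real.log ‖a 0‖ + Real.log ‖a 1‖ + Real.log ‖a 2‖ = Real.log (108 * n) := by
      rw [← Real.log_mul p0.ne' p1.ne', ← Real.log_mul (mul_pos p0 p1).ne' p2.ne', hN]
    set T : ℝ := ‖a 2‖ with hT
    have hT1 : 108 * n ≤ T := by
      rw [← hN]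
      have h1 : ‖a 0‖ * ‖a 1‖ ≤ 1 := by nlinarith
      nlinarith
    set X : ℝ := Real.log T with hXd
    have hX1 : 1 ≤ X := one_le_log (by linarith)
    have l0 : Real.log ‖a 0‖ ≤ Real.log ‖a 1‖ := Real.log_le_log p0 m01
    have l1 : Real.log ‖a 1‖ ≤ 0 := Real.log_nonpos p1.le hb.le
    have l2 : 0 ≤ Real.log (108 * n) := Real.log_nonneg (by linarith)
    have hH : ∀ φ : K →+* ℂ, |Real.log ‖φ (η : K)‖| ≤ X := by
      intro φ
      obtain ⟨i, hi⟩ := hall φ
      have hi' : φ (η : K) = a i := hi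
      rw [hi', abs_le]
      fin_cases i
      · exact ⟨by simp only [Fin.zero_eta]; linarith, by simp only [Fin.zero_eta]; linarith⟩
      · exact ⟨by simp only [Fin.mk_one]; linarith, by simp only [Fin.mk_one]; linarith⟩
      · exact ⟨by simp only [Fin.reduceFinMk]; linarith, by simp only [Fin.reduceFinMk]; linarith⟩
    have hz : (algebraMap ℚ ℂ) (-1) * σ (η : K) / τ (η : K) - 1 = a 0 / a 2 := by
      rw [hσ', hτ', map_neg, map_one]
      field_simp
      linear_combination -hS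
    have hz1 : (algebraMap ℚ ℂ) (-1) * σ (η : K) / τ (η : K) ≠ 1 := by
      intro h
      rw [h, sub_self] at hz
      exact (div_ne_zero a0 a2) hz.symm
    have hmain := hX K hfin.le ℚ (by simp) η hη σ τ (algebraMap ℚ ℂ) (-1) (Real.pi * Complex.I) 4
      adm_neg_one X hX1 hH hz1
    rw [hz, norm_div, hNn] at hmain
    have h1 := Real.log_le_log (Real.exp_pos _) hmain
    rw [Real.log_exp, Real.log_div p0.ne' p2.ne'] at h1
    have hd1 : 1 ≤ |(discr K : ℝ)| := by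
      rw [← Int.cast_abs]
      exact_mod_cast Int.one_le_abs (discr_ne_zero K)
    have h2 : √|(discr K : ℝ)| * (1 + Real.log (108 * n)) * 4 *
        Real.log (3 * |(discr K : ℝ)| * (1 + Real.log (108 * n)) * 4 * X) ^ κ ≤
        √(108 * n) * (1 + Real.log (108 * n)) * 4 *
        Real.log (3 * (108 * n) * (1 + Real.log (108 * n)) * 4 * X) ^ κ := by
      have h3 : 1 ≤ 3 * |(discr K : ℝ)| * (1 + Real.log (108 * n)) * 4 * X := by
        have h4 : 1 ≤ 3 * |(discr K : ℝ)| := by linarith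
        have h5 : 1 ≤ 3 * |(discr K : ℝ)| * (1 + Real.log (108 * n)) :=
          one_le_mul_of_one_le_of_one_le h4 (by linarith)
        have h6 : 1 ≤ 3 * |(discr K : ℝ)| * (1 + Real.log (108 * n)) * 4 :=
          one_le_mul_of_one_le_of_one_le h5 (by norm_num)
        exact one_le_mul_of_one_le_of_one_le h6 hX1
      have h4 : 0 ≤ Real.log (3 * |(discr K : ℝ)| * (1 + Real.log (108 * n)) * 4 * X) :=
        Real.log_nonneg h3
      gcongr
    have h3 : C * (√|(discr K : ℝ)| * (1 + Real.log (108 * n)) * 4 *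
        Real.log (3 * |(discr K : ℝ)| * (1 + Real.log (108 * n)) * 4 * X) ^ κ) ≤
        C * (√(108 * n) * (1 + Real.log (108 * n)) * 4 *
        Real.log (3 * (108 * n) * (1 + Real.log (108 * n)) * 4 * X) ^ κ) :=
      mul_le_mul_of_nonneg_left h2 hC.le
    have h4 : 3 / 2 * X ≤ 1 / 2 * Real.log (108 * n) + C * (√(108 * n) *
        (1 + Real.log (108 * n)) * 4 *
        Real.log (3 * (108 * n) * (1 + Real.log (108 * n)) * 4 * X) ^ κ) := by
      linarith
    have h5 := hnum n X hn1 hX1 h4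
    refine h5.trans ?_
    nlinarith
  · push Not at hb
    have h1 : ‖a 1‖ ≤ 2 * ‖a 0‖ := by
      have h2 : a 1 * a 2 = -(a 0 * (a 2 + a 1)) := by linear_combination hS
      have h3 : ‖a 1‖ * ‖a 2‖ ≤ ‖a 0‖ * (‖a 2‖ + ‖a 1‖) := by
        rw [← norm_mul, h2, norm_neg, norm_mul]
        gcongr
        exact norm_add_le _ _
      have h4 : ‖a 1‖ * ‖a 2‖ ≤ 2 * ‖a 0‖ * ‖a 2‖ := by nlinarith
      exact le_of_mul_le_mul_right h4 p2
    have h2 : ‖a 2‖ ≤ 216 * n := by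
      have h3 : 1 / 2 ≤ ‖a 0‖ * ‖a 1‖ := by nlinarith
      nlinarith
    have h3 : Real.log ‖a 2‖ ≤ Real.log 216 + Real.log n := by
      rw [← Real.log_mul (by norm_num) (by linarith)]
      exact Real.log_le_log p2 h2
    have h4 : Real.log 216 ≤ 6 := by
      rw [Real.log_le_iff_le_exp (by norm_num)]
      have h1 := Real.exp_one_gt_d9
      calc (216 : ℝ) ≤ (2.7 : ℝ) ^ 6 := by norm_num
        _ ≤ (Real.exp 1) ^ 6 := by gcongr; linarith
        _ = Real.exp 6 := by rw [← Real.exp_nat_mul]; norm_num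
    have h5 : Real.log n ≤ Real.log (n + 2) := Real.log_le_log (by linarith) (by linarith)
    have h6 : Real.log (n + 2) ≤ Real.log (n + 2) ^ (κ + 1) := by
      conv_lhs => rw [← pow_one (Real.log (n + 2))]
      exact pow_le_pow_right₀ hl1 (by omega)
    have h7 : Real.log (n + 2) ^ (κ + 1) ≤ √n * Real.log (n + 2) ^ (κ + 1) :=
      le_mul_of_one_le_left (by linarith) hs1
    calc Real.log ‖a 2‖ ≤ 6 + Real.log (n + 2) ^ (κ + 1) := by linarith
      _ ≤ 7 * (√n * Real.log (n + 2) ^ (κ + 1)) := by linarith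
      _ ≤ (C' + 6) * (√n * Real.log (n + 2) ^ (κ + 1)) := by gcongr; linarith
      _ = _ := by ring

end Pool.Agent.LibST91
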