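import Pool.Agent.LibST91T.TX4

/-!
[ST TX7] The cubic case for both coordinates.
-/

set_option autoImplicit false

open NumberField

namespace Pool.Agent.LibST91

theorem mordell_max (hX : MainX 3 1) : ∃ C : ℝ, 0 < C ∧ ∃ κ : ℕ, ∀ x y : ℤ, y ^ 2 ≠ x ^ 3 →
    Real.log (max |(x : ℝ)| |(y : ℝ)|) ≤ C * √|((y ^ 2 - x ^ 3 : ℤ) : ℝ)| *
      Real.log (|((y ^ 2 - x ^ 3 : ℤ) : ℝ)| + 2) ^ κ := by
  obtain ⟨C, hC, κ, h⟩ := mordell hX
  refine ⟨2 * C + 2, by linarith, κ + 1, fun x y hxy => ?_⟩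
  have hx := h x y hxy
  set k : ℤ := y ^ 2 - x ^ 3 with hk
  have hk0 : k ≠ 0 := sub_ne_zero.2 hxy
  set n : ℝ := |(k : ℝ)| with hn
  have hn1 : 1 ≤ n := by
    rw [hn, ← Int.cast_abs]
    exact_mod_cast Int.one_le_abs hk0
  have hs1 : 1 ≤ √n := Real.one_le_sqrt.2 hn1
  have hl1 : 1 ≤ Real.log (n + 2) := one_le_log (by linarith)
  set S : ℝ := √n * Real.log (n + 2) ^ (κ + 1) with hS
  have hlk : Real.log (n + 2) ^ κ ≤ Real.log (n + 2) ^ (κ + 1) :=
    pow_le_pow_right₀ hl1 (by omega)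
  have hlk1 : Real.log (n + 2) ≤ Real.log (n + 2) ^ (κ + 1) := by
    conv_lhs => rw [← pow_one (Real.log (n + 2))]
    exact pow_le_pow_right₀ hl1 (by omega)
  have hSl : Real.log (n + 2) ≤ S := by
    rw [hS]
    nlinarith
  have hx' : Real.log |(x : ℝ)| ≤ C * S := by
    refine hx.trans ?_
    rw [hS, mul_assoc]
    gcongr
  have hS0 : 0 ≤ S := by linarith
  have hgoal : (2 * C + 2) * √n * Real.log (n + 2) ^ (κ + 1) = (2 * C + 2) * S := by
    rw [hS]; ring
  rw [hgoal]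
  -- the bound for `y`
  have hlx0 : Real.log (max 1 |(x : ℝ)|) ≤ C * S := by
    rcases le_total |(x : ℝ)| 1 with h1 | h1
    · rw [max_eq_left h1, Real.log_one]
      positivity
    · rw [max_eq_right h1]
      exact hx'
  set m : ℝ := max 1 |(x : ℝ)| with hm
  have hm1 : 1 ≤ m := le_max_left _ _
  have hm2 : |(x : ℝ)| ≤ m := le_max_right _ _
  have hyk : |(y : ℝ)| ^ 2 ≤ (n + 2) * m ^ 3 := by
    have h1 : ((y : ℝ)) ^ 2 = (k : ℝ) + (x : ℝ) ^ 3 := by
      rw [hk]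
      push_cast
      ring
    rw [sq_abs, h1]
    have h2 : (k : ℝ) ≤ n := le_abs_self _
    have h3 : (x : ℝ) ^ 3 ≤ |(x : ℝ)| ^ 3 := by
      rw [← abs_pow]
      exact le_abs_self _
    have h4 : |(x : ℝ)| ^ 3 ≤ m ^ 3 := by gcongr
    have h5 : 1 ≤ m ^ 3 := one_le_pow₀ hm1
    nlinarith
  have hy : Real.log (max 1 |(y : ℝ)|) ≤ (2 * C + 1) * S := by
    rcases le_total |(y : ℝ)| 1 with h1 | h1
    · rw [max_eq_left h1, Real.log_one]
      positivity
    · rw [max_eq_right h1]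
      have h2 := Real.log_le_log (by positivity) hyk
      rw [Real.log_pow, Real.log_mul (by positivity) (by positivity), Real.log_pow] at h2
      push_cast at h2
      have h3 : 3 * Real.log m ≤ 3 * (C * S) := by linarith
      have h4 : 0 ≤ C * S := by positivity
      nlinarith
  rcases le_total |(x : ℝ)| |(y : ℝ)| with h1 | h1
  · rw [max_eq_right h1]
    rcases eq_or_ne (y : ℝ) 0 with h2 | h2
    · rw [h2, abs_zero, Real.log_zero]
      positivity
    · have h3 : Real.log |(y : ℝ)| ≤ Real.log (max 1 |(y : ℝ)|) :=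
        Real.log_le_log (abs_pos.2 h2) (le_max_right _ _)
      nlinarith
  · rw [max_eq_left h1]
    nlinarith [mul_nonneg hC.le hS0]

end Pool.Agent.LibST91
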